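import Pool.Agent.Helper68.WA.Main3

/-! Question Q1 of MP_df1c3e_lc (eigenvalue criterion for polynomially ambiguous weighted
automata) over subfields `K` of `ℂ`, for all automata, invertible or not, whose transition matrices
become block upper triangular over `ℂ` such that in each diagonal block any two nonzero eigenvalues
of products are multiplicatively dependent (rank at most one), or the block is tame. With a single
block this is Q1 for real `K` and semigroups `G` of rank at most one. -/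

namespace Pool.Agent.Results.MP_df1c3e_lc.RankOne

open Matrix Pool.Agent.Helper68.WA

theorem _root_.Pool.Agent.Results.MP_df1c3e_lc.RankOne.result
    {K : Type*} [Field K] [Algebra K ℂ] {A : Type*} [Finite A] (d : ℕ) (X : WAut K A (Fin d))
    (G : Subsemigroup ℂ) (hfg : ∃ S : Finset ℂ, G = Subsemigroup.closure (S : Set ℂ))
    (N : ℕ) (hN : 1 ≤ N) (hpow : ∀ α ∈ G, ∃ c : K, algebraMap K ℂ c = α ^ N)
    (heig : ∀ (w : List A) (μ : ℂ) (x : Fin d → ℂ), x ≠ 0 →
      (X.mat w).map (algebraMap K ℂ) *ᵥ x = μ • x → μ ∈ G)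
    (P : (Matrix (Fin d) (Fin d) ℂ)ˣ) (b : Fin d → ℕ)
    (hb : ∀ a, ((P⁻¹).val * (X.tr a).map (algebraMap K ℂ) * P.val).BlockTriangular b)
    (hblock : ∀ k,
      Tame (fun a =>
        ((P⁻¹).val * (X.tr a).map (algebraMap K ℂ) * P.val).toSquareBlock b k) ∨
      (Dependent (fun a =>
        ((P⁻¹).val * (X.tr a).map (algebraMap K ℂ) * P.val).toSquareBlock b k) ∧
      ((∀ c : K, ∃ x : ℝ, algebraMap K ℂ c = (x : ℂ)) ∨
        ∀ μ ∈ eigenvalues (fun a =>
          ((P⁻¹).val * (X.tr a).map (algebraMap K ℂ) * P.val).toSquareBlock b k),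
          ‖μ‖ = 1 → ∃ m : ℕ, 0 < m ∧ μ ^ m = 1))) :
    ∃ (d' : ℕ) (Y : WAut K A (Fin d')), Y.PolyAmbiguous ∧ ∀ w, Y.eval w = X.eval w :=
  main3 d X G hfg N hN hpow heig P b hb hblock

end Pool.Agent.Results.MP_df1c3e_lc.RankOne
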