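import Pool.Agent.Helper68.WA.Final

/-! Question Q1 of MP_df1c3e_lc (eigenvalue criterion for polynomially ambiguous weighted
automata) for all automata, invertible or not, over all fields, whose transition matrices become
block upper triangular with tame diagonal blocks over the algebraic closure. -/

namespace Pool.Agent.Results.MP_df1c3e_lc.TameBlocks

open Matrix Pool.Agent.Helper68.WA

theorem _root_.Pool.Agent.Results.MP_df1c3e_lc.TameBlocks.result
    {K : Type*} [Field K] {A : Type*} [Finite A] (d : ℕ) (X : WAut K A (Fin d))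
    (G : Subsemigroup (AlgebraicClosure K))
    (hfg : ∃ S : Finset (AlgebraicClosure K),
      G = Subsemigroup.closure (S : Set (AlgebraicClosure K)))
    (N : ℕ) (hN : 1 ≤ N)
    (hpow : ∀ α ∈ G, ∃ c : K, algebraMap K (AlgebraicClosure K) c = α ^ N)
    (heig : ∀ (w : List A) (μ : AlgebraicClosure K) (x : Fin d → AlgebraicClosure K), x ≠ 0 →
      (X.mat w).map (algebraMap K (AlgebraicClosure K)) *ᵥ x = μ • x → μ ∈ G)
    (P : (Matrix (Fin d) (Fin d) (AlgebraicClosure K))ˣ) (b : Fin d → ℕ)
    (hb : ∀ a, ((P⁻¹).val * (X.tr a).map (algebraMap K (AlgebraicClosure K)) *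
      P.val).BlockTriangular b)
    (hblock : ∀ k, Tame fun a =>
      ((P⁻¹).val * (X.tr a).map (algebraMap K (AlgebraicClosure K)) *
        P.val).toSquareBlock b k) :
    ∃ (d' : ℕ) (Y : WAut K A (Fin d')), Y.PolyAmbiguous ∧ ∀ w, Y.eval w = X.eval w :=
  main d X G hfg N hN hpow heig P b hb hblock

end Pool.Agent.Results.MP_df1c3e_lc.TameBlocks
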